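import Pool.Agent.Lib.MP_04668c_co.E.Base

/-!
# PERT: perturbation of an injective linear map and of a vector
-/

set_option autoImplicit false
set_option linter.unusedSectionVars false

namespace Pool.Agent.Lib.MP_04668c_co.E.H54

open Finset Classical Module
open Pool.Agent.Lib.MP_04668c_co Pool.Agent.Lib.MP_04668c_co.E

theorem pert_bound_normed {M : Type} [NormedAddCommGroup M] [NormedSpace ℝ M]
    [FiniteDimensional ℝ M] (T : M →ₗ[ℝ] M) (b₀ b₁ : M) :
    ∃ R ε : ℝ, 0 < ε ∧ ∀ t : ℝ, |t| < ε → ∀ y : M, y + t • T y = b₀ + t • b₁ → ‖y‖ ≤ R := by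
  set Tc := LinearMap.toContinuousLinearMap T with hTc
  refine ⟨2 * (‖b₀‖ + ‖b₁‖), 1 / (2 * (‖Tc‖ + 1)), by positivity, fun t ht y hy => ?_⟩
  have hy' : y = b₀ + t • b₁ - t • T y := by rw [← hy]; abel
  have h1 : ‖T y‖ ≤ ‖Tc‖ * ‖y‖ := Tc.le_opNorm y
  have h2 : ‖y‖ ≤ ‖b₀‖ + |t| * ‖b₁‖ + |t| * ‖T y‖ := by
    calc ‖y‖ = ‖b₀ + t • b₁ - t • T y‖ := by rw [← hy']
      _ ≤ ‖b₀ + t • b₁‖ + ‖t • T y‖ := norm_sub_le _ _
      _ ≤ ‖b₀‖ + ‖t • b₁‖ + ‖t • T y‖ := by gcongr; exact norm_add_le _ _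
      _ = _ := by rw [norm_smul, norm_smul, Real.norm_eq_abs]
  have hT0 : 0 ≤ ‖Tc‖ := norm_nonneg _
  have hy0 : 0 ≤ ‖y‖ := norm_nonneg _
  have hb1 : 0 ≤ ‖b₁‖ := norm_nonneg _
  have h3 : |t| * (2 * (‖Tc‖ + 1)) < 1 := by
    rw [lt_div_iff₀ (by positivity)] at ht
    exact ht
  have ht0 : 0 ≤ |t| := abs_nonneg t
  have h4 : |t| * ‖T y‖ ≤ |t| * (‖Tc‖ * ‖y‖) := by gcongr
  have h5 : |t| * ‖Tc‖ ≤ 1 / 2 := by nlinarith
  have h6 : |t| ≤ 1 := by nlinarith
  have h7 : |t| * (‖Tc‖ * ‖y‖) ≤ 1 / 2 * ‖y‖ := by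
    rw [← mul_assoc]; gcongr
  have h8 : |t| * ‖b₁‖ ≤ ‖b₁‖ := by nlinarith
  linarith

theorem pert_bound {M : Type} [AddCommGroup M] [Module ℝ M]
    [FiniteDimensional ℝ M] (T : M →ₗ[ℝ] M) (b₀ b₁ : M) (g : M →ₗ[ℝ] ℝ) :
    ∃ C ε : ℝ, 0 < ε ∧ ∀ t : ℝ, |t| < ε → ∀ y : M, y + t • T y = b₀ + t • b₁ →
      |g y| ≤ C := by
  set e := (Module.finBasis ℝ M).equivFun with he
  obtain ⟨R, ε, hε, h⟩ := pert_bound_normed
    ((e.toLinearMap.comp T).comp e.symm.toLinearMap) (e b₀) (e b₁)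
  set gc := LinearMap.toContinuousLinearMap (g.comp e.symm.toLinearMap) with hgc
  refine ⟨‖gc‖ * R, ε, hε, fun t ht y hy => ?_⟩
  have h1 := h t ht (e y) (by
    simp only [LinearMap.comp_apply, LinearEquiv.coe_coe, LinearEquiv.symm_apply_apply]
    rw [← map_smul, ← map_add, hy, map_add, map_smul])
  have h2 : ‖gc (e y)‖ ≤ ‖gc‖ * ‖e y‖ := gc.le_opNorm _
  have h3 : gc (e y) = g y := by
    simp [hgc]
  rw [h3, Real.norm_eq_abs] at h2
  exact h2.trans (by gcongr)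

/-- PERT. -/
theorem pert : PertStatement := by
  intro M N _ _ _ _ _ _ A₀ A₁ ψ₀ ψ₁ hinj halt
  obtain ⟨B, hB⟩ := A₀.exists_leftInverse_of_injective (LinearMap.ker_eq_bot.mpr hinj)
  have hBA : ∀ z, B (A₀ z) = z := fun z => by
    have := LinearMap.congr_fun hB z
    simpa using this
  -- both alternatives give a nonzero constant that is `t` times a bounded quantity
  have main : ∃ (c : ℝ) (g : M →ₗ[ℝ] ℝ) (d : ℝ), c ≠ 0 ∧ ∀ t : ℝ, t ≠ 0 → ∀ y : M,
      (A₀ + t • A₁) y = ψ₀ + t • ψ₁ → c = t * (d - g y) := by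
    rcases halt with h | ⟨p, y, hp, hy, hne⟩
    · obtain ⟨f, hf, hf'⟩ := Submodule.exists_le_ker_of_notMem h
      refine ⟨f ψ₀, -(f.comp A₁), - f ψ₁, hf, fun t _ y hy => ?_⟩
      have h1 := congrArg f hy
      simp only [LinearMap.add_apply, LinearMap.smul_apply, map_add, map_smul,
        smul_eq_mul] at h1
      have h2 : f (A₀ y) = 0 := by
        have := hf' (LinearMap.mem_range_self A₀ y)
        simpa using this
      rw [h2, zero_add] at h1
      simp only [LinearMap.neg_apply, LinearMap.comp_apply]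
      linarith
    · refine ⟨p ψ₁ - p (A₁ y), (p.comp A₁).comp (B.comp A₁), p (A₁ (B ψ₁)), sub_ne_zero.mpr hne,
        fun t ht y' hy' => ?_⟩
      have h0 : p ψ₀ = 0 := by rw [← hy]; exact hp y
      have h1 := congrArg p hy'
      simp only [LinearMap.add_apply, LinearMap.smul_apply, map_add, map_smul,
        smul_eq_mul] at h1
      rw [hp, h0, zero_add, zero_add] at h1
      have h2 : p (A₁ y') = p ψ₁ := mul_left_cancel₀ ht h1
      have h3 := congrArg B hy'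
      simp only [LinearMap.add_apply, LinearMap.smul_apply, map_add, map_smul] at h3
      rw [hBA, ← hy, hBA] at h3
      have h4 := congrArg (fun z => p (A₁ z)) h3
      simp only [map_add, map_smul, smul_eq_mul] at h4
      simp only [LinearMap.comp_apply]
      linarith
  obtain ⟨c, g, d, hc, hmain⟩ := main
  obtain ⟨C, ε, hε, hb⟩ := pert_bound (B.comp A₁) (B ψ₀) (B ψ₁) g
  refine ⟨min ε (|c| / (|d| + |C| + 1)), lt_min hε (by positivity), fun t ht0 ht hmem => ?_⟩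
  obtain ⟨y, hy⟩ := hmem
  have h1 := hmain t ht0 y hy
  have h2 := hb t (lt_of_lt_of_le ht (min_le_left _ _)) y (by
    have h3 := congrArg B hy
    simp only [LinearMap.add_apply, LinearMap.smul_apply, map_add, map_smul] at h3
    rw [hBA] at h3
    simpa using h3)
  have h3 : |t| < |c| / (|d| + |C| + 1) := lt_of_lt_of_le ht (min_le_right _ _)
  rw [lt_div_iff₀ (by positivity)] at h3
  have h4 : |c| = |t| * |d - g y| := by rw [h1, abs_mul]
  have h5 : |d - g y| ≤ |d| + |C| := by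
    calc |d - g y| ≤ |d| + |g y| := abs_sub _ _
      _ ≤ |d| + |C| := add_le_add le_rfl (h2.trans (le_abs_self C))
  have h6 : |t| * |d - g y| ≤ |t| * (|d| + |C| + 1) := by
    gcongr; linarith
  linarith

end Pool.Agent.Lib.MP_04668c_co.E.H54
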