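import Pool.Agent.Lib.MP_04668c_co.E.H54.Pert
import Pool.Agent.Lib.MP_04668c_co.Tests

/-!
# STAB: after a small displacement of the shapes the test force is not in the span
-/

set_option autoImplicit false
set_option linter.unusedSectionVars false

namespace Pool.Agent.Lib.MP_04668c_co.E.H54

open Finset Classical Module
open Pool.Agent.Lib.MP_04668c_co Pool.Agent.Lib.MP_04668c_co.E

section

variable {V X : Type} [Fintype V] [Fintype X]

theorem ip_add_left (p p' F : V → ℝ × ℝ) : ip (p + p') F = ip p F + ip p' F := by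
  rw [ip_apply, ip_apply, ip_apply, ← Finset.sum_add_distrib]
  refine Finset.sum_congr rfl (fun v _ => ?_)
  simp only [Pi.add_apply, Prod.fst_add, Prod.snd_add]
  ring

theorem ip_smul_left (t : ℝ) (p F : V → ℝ × ℝ) : ip (t • p) F = t * ip p F := by
  rw [ip_apply, ip_apply, Finset.mul_sum]
  refine Finset.sum_congr rfl (fun v _ => ?_)
  simp only [Pi.smul_apply, Prod.smul_fst, Prod.smul_snd, smul_eq_mul]
  ring

/-- The work of a placement that is a translate of a multiple of the shape. -/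
theorem ip_of_shape (A : Finset V) (p q F : V → ℝ × ℝ) (s : ℝ) (a : ℝ × ℝ)
    (hp : ∀ v ∈ A, p v = s • q v + a) (hF : ∀ v, v ∉ A → F v = 0) (h0 : ∑ v, F v = 0) :
    ip p F = s * ip q F := by
  have h1 : ip p F = ∑ v, (s * ((F v).1 * (q v).1 + (F v).2 * (q v).2) +
      ((F v).1 * a.1 + (F v).2 * a.2)) := by
    rw [ip_apply]
    refine Finset.sum_congr rfl (fun v _ => ?_)
    by_cases hv : v ∈ A
    · rw [hp v hv]
      simp only [Prod.fst_add, Prod.snd_add, Prod.smul_fst, Prod.smul_snd, smul_eq_mul]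
      ring
    · rw [hF v hv]; simp
  have h4 : ∑ v, ((F v).1 * a.1 + (F v).2 * a.2) =
      (∑ v, (F v).1) * a.1 + (∑ v, (F v).2) * a.2 := by
    rw [Finset.sum_add_distrib, Finset.sum_mul, Finset.sum_mul]
  rw [h1, Finset.sum_add_distrib, ← Finset.mul_sum, ip_apply, h4]
  have h2 : ∑ v, (F v).1 = 0 := by
    have := congrArg Prod.fst h0
    rwa [Prod.fst_sum] at this
  have h3 : ∑ v, (F v).2 = 0 := by
    have := congrArg Prod.snd h0
    rwa [Prod.snd_sum] at this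
  rw [h2, h3]; ring

theorem mem_NN (B : X → Finset V) (q : X → V → ℝ × ℝ) (Φ : X → V → ℝ × ℝ) :
    Φ ∈ NN B q ↔ Φ ∈ famK B univ ∧ ∀ x, ip (q x) (Φ x) = 0 := by
  simp only [NN, Submodule.mem_inf, Submodule.mem_iInf, LinearMap.mem_ker,
    LinearMap.comp_apply, LinearMap.proj_apply]

theorem dip_add_vec (u v : V) (n m : ℝ × ℝ) : dip u v (n + m) = dip u v n + dip u v m := by
  exact (dipL u v).map_add n m

theorem dip_smul_vec (u v : V) (t : ℝ) (n : ℝ × ℝ) : dip u v (t • n) = t • dip u v n := by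
  exact (dipL u v).map_smul t n

theorem tv_add_smul (q δ : X → V → ℝ × ℝ) (t : ℝ) (i : Tst X V) :
    tv (q + t • δ) i = tv q i + t • tv δ i := by
  unfold tv
  split_ifs
  · rw [← dip_smul_vec, ← dip_add_vec]
    congr 1
    simp only [Pi.add_apply, Pi.smul_apply]
    rw [smul_sub]; abel
  · rw [← dip_smul_vec, ← dip_add_vec]
    congr 1
    simp only [Pi.add_apply, Pi.smul_apply, perp, Prod.ext_iff, Prod.fst_add, Prod.snd_add,
      Prod.fst_sub, Prod.snd_sub, Prod.smul_fst, Prod.smul_snd, smul_eq_mul]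
    constructor <;> ring

/-- A force of work one. -/
theorem exists_unit_force (A : Finset V) (q : V → ℝ × ℝ) (h : ∃ u ∈ A, ∃ v ∈ A, q u ≠ q v) :
    ∃ g : V → ℝ × ℝ, (∀ v, v ∉ A → g v = 0) ∧ ∑ v, g v = 0 ∧ ip q g = 1 := by
  obtain ⟨u, hu, v, hv, huv⟩ := h
  have hne : q u - q v ≠ 0 := sub_ne_zero.mpr huv
  have h1 : ip q (dip u v (q u - q v)) = (q u - q v).1 * (q u - q v).1 +
      (q u - q v).2 * (q u - q v).2 := by
    rw [ip_dip]; simp only [Prod.fst_sub, Prod.snd_sub]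
  have h2 := ne_zero_of_sq hne
  rw [← h1] at h2
  refine ⟨(ip q (dip u v (q u - q v)))⁻¹ • dip u v (q u - q v), fun w hw => ?_, ?_, ?_⟩
  · have hwu : w ≠ u := fun h => hw (h ▸ hu)
    have hwv : w ≠ v := fun h => hw (h ▸ hv)
    simp [dip, hwu, hwv]
  · simp only [Pi.smul_apply]
    rw [← Finset.smul_sum, sum_dip, smul_zero]
  · rw [map_smul, smul_eq_mul, inv_mul_cancel₀ h2]

end

/-- STAB. -/
theorem stab : StabStatement := by
  intro V X _ _ B q δ p s a i hind hq hp halt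
  choose g hg1 hg2 hg3 using fun x => exists_unit_force (B x) (q x) (hq x)
  -- the linear maps
  set A₀ : NN B q →ₗ[ℝ] (V → ℝ × ℝ) := sumMap.comp (NN B q).subtype with hA₀
  set A₁ : NN B q →ₗ[ℝ] (V → ℝ × ℝ) := ∑ x : X,
    ((ip (δ x) (g x)) • ((LinearMap.proj x).comp (NN B q).subtype) -
      (((ip (δ x)).comp ((LinearMap.proj x).comp (NN B q).subtype)).smulRight (g x))) with hA₁
  have A₀_apply : ∀ Φ : NN B q, A₀ Φ = ∑ x, (Φ : X → V → ℝ × ℝ) x := fun Φ => rfl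
  have A₁_apply : ∀ Φ : NN B q, A₁ Φ = ∑ x, (ip (δ x) (g x) • (Φ : X → V → ℝ × ℝ) x -
      ip (δ x) ((Φ : X → V → ℝ × ℝ) x) • g x) := by
    intro Φ
    rw [hA₁, LinearMap.sum_apply]
    rfl
  have hinj : Function.Injective A₀ := by
    rw [← LinearMap.ker_eq_bot, eq_bot_iff]
    intro Φ hΦ
    rw [LinearMap.mem_ker] at hΦ
    have h1 := (mem_NN B q Φ.1).mp Φ.2
    have h2 := hind Φ.1 h1.1 h1.2 hΦ
    rw [Submodule.mem_bot]
    exact Subtype.ext h2
  have hrange : ∀ ψ, ψ ∈ LinearMap.range A₀ ↔ ψ ∈ sp B q := by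
    intro ψ
    unfold sp
    rw [Submodule.mem_map]
    constructor
    · rintro ⟨Φ, hΦ⟩
      exact ⟨Φ.1, Φ.2, hΦ⟩
    · rintro ⟨Φ, hΦ, h⟩
      exact ⟨⟨Φ, hΦ⟩, h⟩
  -- work of forces
  have hwork : ∀ Φ ∈ NN B q, ∀ x, ip p (Φ x) = 0 := by
    intro Φ hΦ x
    obtain ⟨h1, h2⟩ := (mem_NN B q Φ).mp hΦ
    rw [ip_of_shape (B x) p (q x) (Φ x) (s x) (a x) (hp x) (h1.2.1 x) (h1.2.2 x), h2 x,
      mul_zero]
  have hworkg : ∀ x, ip p (g x) = s x := by
    intro x
    rw [ip_of_shape (B x) p (q x) (g x) (s x) (a x) (hp x) (hg1 x) (hg2 x), hg3 x, mul_one]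
  obtain ⟨ε, hε, hpert⟩ := pert (NN B q) (V → ℝ × ℝ) A₀ A₁ (tv q i) (tv δ i) hinj (by
    rcases halt with h | ⟨Φ, hΦ, hsum, hJ⟩
    · left
      rwa [hrange]
    · right
      refine ⟨ip p, ⟨Φ, hΦ⟩, fun z => ?_, hsum, fun heq => hJ ?_⟩
      · rw [A₀_apply, map_sum]
        exact Finset.sum_eq_zero (fun x _ => hwork z.1 z.2 x)
      · unfold Jv
        rw [heq, A₁_apply, map_sum, ← Finset.sum_add_distrib]
        refine Finset.sum_eq_zero (fun x _ => ?_)
        rw [map_sub, map_smul, map_smul, hworkg x]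
        have : ip p (Φ x) = 0 := hwork Φ hΦ x
        simp only [smul_eq_mul]
        rw [this]
        ring)
  -- small t keeps the work of the unit forces away from zero
  have hsmall : ∃ ε' : ℝ, 0 < ε' ∧ ∀ t : ℝ, |t| < ε' → ∀ x, 1 + t * ip (δ x) (g x) ≠ 0 := by
    refine ⟨1 / (1 + ∑ x, |ip (δ x) (g x)|), by positivity, fun t ht x h0 => ?_⟩
    rw [lt_div_iff₀ (by positivity)] at ht
    have h1 : |ip (δ x) (g x)| ≤ ∑ x, |ip (δ x) (g x)| :=
      Finset.single_le_sum (f := fun x => |ip (δ x) (g x)|) (fun x _ => abs_nonneg _)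
        (mem_univ x)
    have h2 : |t * ip (δ x) (g x)| = 1 := by
      have : t * ip (δ x) (g x) = -1 := by linarith
      rw [this]; simp
    rw [abs_mul] at h2
    have h3 : |t| * |ip (δ x) (g x)| ≤ |t| * ∑ x, |ip (δ x) (g x)| := by gcongr
    have h4 : 0 ≤ |t| := abs_nonneg t
    nlinarith
  obtain ⟨ε', hε', hsm⟩ := hsmall
  refine ⟨min ε ε', lt_min hε hε', fun t ht0 ht hmem => ?_⟩
  have hne := hpert t ht0 (lt_of_lt_of_le ht (min_le_left _ _))
  have hnz := hsm t (lt_of_lt_of_le ht (min_le_right _ _))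
  apply hne
  rw [← tv_add_smul]
  unfold sp at hmem
  rw [Submodule.mem_map] at hmem
  obtain ⟨Ψ, hΨ, hΨs⟩ := hmem
  obtain ⟨hΨ1, hΨ2⟩ := (mem_NN B _ Ψ).mp hΨ
  have hΨ3 : ∀ x, ip (q x) (Ψ x) + t * ip (δ x) (Ψ x) = 0 := by
    intro x
    have := hΨ2 x
    rwa [Pi.add_apply, Pi.smul_apply, ip_add_left, ip_smul_left] at this
  -- the family over the undisplaced shapes
  set Φ : X → V → ℝ × ℝ := fun x =>
    (1 + t * ip (δ x) (g x))⁻¹ • (Ψ x - ip (q x) (Ψ x) • g x) with hΦ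
  have hΦx : ∀ x, Φ x = (1 + t * ip (δ x) (g x))⁻¹ • (Ψ x - ip (q x) (Ψ x) • g x) :=
    fun x => rfl
  have hΦm : Φ ∈ NN B q := by
    rw [mem_NN]
    refine ⟨⟨fun x hx => absurd (mem_univ x) hx, fun x v hv => ?_, fun x => ?_⟩, fun x => ?_⟩
    · rw [hΦx]
      simp only [Pi.smul_apply, Pi.sub_apply]
      rw [hΨ1.2.1 x v hv, hg1 x v hv]
      simp
    · rw [hΦx]
      simp only [Pi.smul_apply, Pi.sub_apply]
      rw [← Finset.smul_sum, Finset.sum_sub_distrib, ← Finset.smul_sum, hΨ1.2.2 x, hg2 x]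
      simp
    · rw [hΦx, map_smul, map_sub, map_smul, hg3 x]
      simp
  refine ⟨⟨Φ, hΦm⟩, ?_⟩
  rw [LinearMap.add_apply, LinearMap.smul_apply, A₀_apply, A₁_apply, Finset.smul_sum,
    ← Finset.sum_add_distrib, ← hΨs, sumMap_apply]
  refine Finset.sum_congr rfl (fun x _ => ?_)
  have hz := hnz x
  have h1 : ip (δ x) (Φ x) * (1 + t * ip (δ x) (g x)) =
      ip (δ x) (Ψ x) - ip (q x) (Ψ x) * ip (δ x) (g x) := by
    rw [hΦx, map_smul, map_sub, map_smul, smul_eq_mul, smul_eq_mul]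
    field_simp
  have h2 : t * ip (δ x) (Φ x) = - ip (q x) (Ψ x) := by
    have h3 := hΨ3 x
    apply mul_right_cancel₀ hz
    rw [mul_assoc, h1]
    linear_combination h3
  have h4 : ∀ (α β : ℝ) (Y G : V → ℝ × ℝ), Y + t • (α • Y - β • G) =
      (1 + t * α) • Y - (t * β) • G := by
    intro α β Y G
    module
  show Φ x + t • (ip (δ x) (g x) • Φ x - ip (δ x) (Φ x) • g x) = Ψ x
  rw [h4, h2, hΦx, smul_smul, mul_inv_cancel₀ hz, one_smul, neg_smul]
  abel

end Pool.Agent.Lib.MP_04668c_co.E.H54
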