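import Pool.Agent.Lib.MP_04668c_co.E.Base

/-!
# RADO: independent transversals of finite sets of functionals (Welsh's proof)
-/

set_option autoImplicit false
set_option linter.unusedSectionVars false

namespace Pool.Agent.Lib.MP_04668c_co.E.H54

open Finset Classical Module
open Pool.Agent.Lib.MP_04668c_co Pool.Agent.Lib.MP_04668c_co.E

section

variable {N X : Type} [AddCommGroup N] [Module ℝ N] [FiniteDimensional ℝ N] [Fintype X]

/-- The common kernel. -/
noncomputable def comk (F : X → Finset (N →ₗ[ℝ] ℝ)) (J : Finset X) : Submodule ℝ N :=
  ⨅ x ∈ J, ⨅ f ∈ F x, LinearMap.ker f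

theorem mem_comk (F : X → Finset (N →ₗ[ℝ] ℝ)) (J : Finset X) (v : N) :
    v ∈ comk F J ↔ ∀ x ∈ J, ∀ f ∈ F x, f v = 0 := by
  simp [comk, Submodule.mem_iInf]

theorem rado_aux (n : ℕ) : ∀ (F : X → Finset (N →ₗ[ℝ] ℝ)), (∑ x, (F x).card = n) →
    (∀ x, (F x).Nonempty) → (∀ K : Finset X, finrank ℝ (comk F Kᶜ) ≤ K.card) →
    ∃ f : X → (N →ₗ[ℝ] ℝ), (∀ x, f x ∈ F x) ∧ ∀ v, (∀ x, f x v = 0) → v = 0 := by
  induction n using Nat.strong_induction_on with
  | _ n ih =>
    intro F hn hne hK
    by_cases h1 : ∀ x, (F x).card = 1
    · choose f hf using hne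
      refine ⟨f, hf, fun v hv => ?_⟩
      have h0 := hK ∅
      rw [card_empty, Nat.le_zero, Submodule.finrank_eq_zero] at h0
      have hm : v ∈ comk F (∅ : Finset X)ᶜ := by
        rw [mem_comk]
        intro x _ g hg
        have := Finset.card_le_one.mp (h1 x).le g hg (f x) (hf x)
        rw [this]; exact hv x
      rw [h0] at hm
      simpa using hm
    · push Not at h1
      obtain ⟨x₀, hx₀⟩ := h1
      have h2 : 1 < (F x₀).card := by
        have := (hne x₀).card_pos
        omega
      obtain ⟨f₁, hf₁, f₂, hf₂, h12⟩ := Finset.one_lt_card.mp h2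
      by_contra hcon
      have key : ∀ f ∈ F x₀, ∃ K : Finset X, x₀ ∉ K ∧
          K.card < finrank ℝ (comk (Function.update F x₀ ((F x₀).erase f)) Kᶜ) := by
        intro f hf
        by_contra hno
        push Not at hno
        apply hcon
        set F' := Function.update F x₀ ((F x₀).erase f) with hF'
        have hF'0 : F' x₀ = (F x₀).erase f := by simp [hF']
        have hF'1 : ∀ x, x ≠ x₀ → F' x = F x := by
          intro x hx
          simp [hF', Function.update_of_ne hx]
        have hsub : ∀ x, F' x ⊆ F x := by
          intro x
          by_cases hx : x = x₀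
          · subst hx; rw [hF'0]; exact erase_subset _ _
          · rw [hF'1 x hx]
        have hlt : ∑ x, (F' x).card < n := by
          rw [← hn]
          apply Finset.sum_lt_sum (fun x _ => card_le_card (hsub x))
          refine ⟨x₀, mem_univ _, ?_⟩
          rw [hF'0, card_erase_of_mem hf]
          omega
        obtain ⟨g, hg, hg'⟩ := ih _ hlt F' rfl (by
          intro x
          by_cases hx : x = x₀
          · subst hx
            rw [hF'0, ← card_pos, card_erase_of_mem hf]
            omega
          · rw [hF'1 x hx]; exact hne x) (by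
          intro K
          by_cases hx : x₀ ∈ K
          · have : comk F' Kᶜ = comk F Kᶜ := by
              ext v
              rw [mem_comk, mem_comk]
              apply forall_congr'
              intro x
              apply forall_congr'
              intro hxK
              rw [hF'1 x (by
                rintro rfl
                exact (mem_compl.mp hxK) hx)]
            rw [this]
            exact hK K
          · exact hno K hx)
        exact ⟨g, fun x => hsub x (hg x), hg'⟩
      obtain ⟨K₁, hx₁, hK₁⟩ := key f₁ hf₁
      obtain ⟨K₂, hx₂, hK₂⟩ := key f₂ hf₂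
      set A₁ := comk (Function.update F x₀ ((F x₀).erase f₁)) K₁ᶜ with hA₁
      set A₂ := comk (Function.update F x₀ ((F x₀).erase f₂)) K₂ᶜ with hA₂
      have hinf : A₁ ⊓ A₂ ≤ comk F (K₁ ∩ K₂)ᶜ := by
        intro v hv
        obtain ⟨hv1, hv2⟩ := Submodule.mem_inf.mp hv
        rw [hA₁, mem_comk] at hv1
        rw [hA₂, mem_comk] at hv2
        rw [mem_comk]
        intro x hx g hg
        by_cases hxx : x = x₀
        · subst hxx
          by_cases hgf : g = f₁
          · apply hv2 x (by simpa using hx₂)
            rw [Function.update_self, mem_erase]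
            exact ⟨by rw [hgf]; exact h12, hg⟩
          · apply hv1 x (by simpa using hx₁)
            rw [Function.update_self, mem_erase]
            exact ⟨hgf, hg⟩
        · rw [mem_compl, mem_inter, not_and_or] at hx
          rcases hx with hx | hx
          · apply hv1 x (by simpa using hx)
            rwa [Function.update_of_ne hxx]
          · apply hv2 x (by simpa using hx)
            rwa [Function.update_of_ne hxx]
      have hsup : A₁ ⊔ A₂ ≤ comk F (insert x₀ (K₁ ∪ K₂))ᶜ := by
        rw [sup_le_iff]
        constructor
        · intro v hv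
          rw [hA₁, mem_comk] at hv
          rw [mem_comk]
          intro x hx g hg
          rw [mem_compl, mem_insert, mem_union, not_or, not_or] at hx
          apply hv x (by simpa using hx.2.1)
          rwa [Function.update_of_ne hx.1]
        · intro v hv
          rw [hA₂, mem_comk] at hv
          rw [mem_comk]
          intro x hx g hg
          rw [mem_compl, mem_insert, mem_union, not_or, not_or] at hx
          apply hv x (by simpa using hx.2.2)
          rwa [Function.update_of_ne hx.1]
      have e1 := Submodule.finrank_mono hinf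
      have e2 := Submodule.finrank_mono hsup
      have e3 := hK (K₁ ∩ K₂)
      have e4 := hK (insert x₀ (K₁ ∪ K₂))
      have e5 := Submodule.finrank_sup_add_finrank_inf_eq A₁ A₂
      have e6 := Finset.card_union_add_card_inter K₁ K₂
      have e7 := Finset.card_insert_le x₀ (K₁ ∪ K₂)
      omega

end

/-- RADO. -/
theorem rado : RadoStatement := by
  intro N X _ _ _ _ F hne hK
  obtain ⟨f, hf, hv⟩ := rado_aux _ F rfl hne hK
  refine ⟨f, hf, ?_⟩
  rw [eq_bot_iff]
  intro v hvm
  rw [Submodule.mem_iInf] at hvm
  rw [Submodule.mem_bot]
  exact hv v (fun x => by simpa using hvm x)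

end Pool.Agent.Lib.MP_04668c_co.E.H54
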